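import Pool.Agent.H56.WV.Ee
import Pool.Agent.H81.RW.Cutl
import Pool.Agent.H66.DIM.If

/-!
(Copy of `H81/RW/Clw` with density of the orbits of the critical values only.)

# Module Clw (LW): CLUSTERS GIVE UNIMODAL FUNCTIONS OF BOUNDED LENGTH; the point with minimal length

`clw`. PROOF. Let `ε > 0` from `Clu P` (decrease it: `ε ≤ 1`), `κ > 0`; `r` small against `κ`, `δ` (`3 r < κ`, `4 r < δ`), `A ⊆ P` a cluster, `x ∈ A`. `q y = max 0 (min 1 (min (4 / (ε r) * infDist y (P \ A) - 1) (3 - ‖y - x‖ / r)))` (if `P \ A = ∅` leave out the first term; `infDist y ∅ = 0`, so distinguish the two cases).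
`q` is Lipschitz (`4 / (ε r)`), values in `[0, 1]`, support in `closedBall x (3 r)`, `q = 1` near the points of `A` (there `infDist ≥ ε r`, so `4 - 1 = 3`; `3 - 1 = 2`), `q = 0` near the points of `P \ A`: locally constant near `P`. `q x = 1`.
Where `fderiv ℝ q y ≠ 0`: not (`q = 1` near `y`) and not (`q = 0` near `y`); then `ball y (ε r / 8)` is disjoint from `P`: a point `p ∈ A` with `‖p - y‖ < ε r / 8` has `infDist y (P \ A) ≥ ε r - ε r / 8`, `‖y - x‖ ≤ r + ε r / 8`, so `q = 1` near `y`; a point `p ∈ P \ A`: `infDist y (P \ A) < ε r / 8`: `q = 0` near `y`.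
`ball y (ε r / 8) ⊆ thickening δ P` (`‖y - x‖ ≤ 3 r`). `WW.up`: `ρ y ≤ ofReal (128 / (ε r))`. `ell ρ q ≤ ofReal (128 / (ε r)) * ofReal (4 / (ε r)) * volume (closedBall x (3 r)) = ofReal (128 * 4 * 9 π / ε ^ 2)`, which does not depend on `r`. `ext_um` (Cutl) with `B = 1`: `trc a b (exf q x)` is unimodal, `= 1` at `x`,
positive only in `oc q x a ⊆ closedBall`/`ball x (4 r)` (`oc_sub`, a ball is full), length `≤ ell ρ q`.
`lmc`: `clw` and `lm_ex`.
-/

set_option autoImplicit false

open Filter Topology Metric Set MeasureTheory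

namespace Pool.Agent.H56.WV

open Pool.Agent.H81.RW

open Pool.Agent.H56.TH

variable {f : ℂ → ℂ} {N J P Cr : Set ℂ} {η : ℂ → ℂ → ℂ} {r₀ δ : ℝ} {ρ : ℂ → ENNReal}

private theorem fd_zero {w : ℂ → ℝ} {y : ℂ} (h : ∀ᶠ y' in 𝓝 y, w y' = w y) : fderiv ℝ w y = 0 := by
  have e : w =ᶠ[𝓝 y] fun _ => w y := h
  rw [e.fderiv_eq, fderiv_const_apply]

private theorem cutoff {P : Set ℂ} {A : Set ℂ} {e r : ℝ} (he : 0 < e) (hr : 0 < r)
    (hsep : ∀ x ∈ A, ∀ y ∈ P, y ∉ A → e * r ≤ ‖x - y‖) :
    ∃ g : ℂ → ℝ, LipschitzWith (4 / (e * r)).toNNReal g ∧ (∀ p ∈ A, ∀ y, ‖y - p‖ ≤ e * r / 4 → 1 ≤ g y) ∧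
      ∀ p ∈ P, p ∉ A → ∀ y, ‖y - p‖ ≤ e * r / 4 → g y ≤ 0 := by
  have her : 0 < e * r := by positivity
  rcases (P \ A).eq_empty_or_nonempty with h0 | h0
  · refine ⟨fun _ => 1, (LipschitzWith.const (1 : ℝ)).weaken zero_le, fun _ _ _ _ => le_rfl, fun p hp hpA => ?_⟩
    have : p ∈ P \ A := ⟨hp, hpA⟩
    rw [h0] at this
    exact absurd this (notMem_empty p)
  · refine ⟨fun y => 4 / (e * r) * infDist y (P \ A) - 1, ?_, fun p hp y hy => ?_, fun p hp hpA y hy => ?_⟩
    · refine LipschitzWith.of_dist_le_mul fun y z => ?_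
      rw [Real.coe_toNNReal _ (by positivity), Real.dist_eq]
      have h1 : 4 / (e * r) * infDist y (P \ A) - 1 - (4 / (e * r) * infDist z (P \ A) - 1) =
          4 / (e * r) * (infDist y (P \ A) - infDist z (P \ A)) := by ring
      rw [h1, abs_mul, abs_of_nonneg (by positivity : 0 ≤ 4 / (e * r))]
      refine mul_le_mul_of_nonneg_left ?_ (by positivity)
      have h2 := (lipschitz_infDist_pt (P \ A)).dist_le_mul y z
      rw [Real.dist_eq, NNReal.coe_one, one_mul] at h2
      exact h2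
    · have h1 : e * r - e * r / 4 ≤ infDist y (P \ A) := by
        refine (le_infDist h0).2 fun q hq => ?_
        have h2 := hsep p hp q hq.1 hq.2
        rw [dist_eq_norm]
        have h3 : ‖p - q‖ ≤ ‖y - q‖ + ‖y - p‖ := by
          calc ‖p - q‖ = ‖(y - q) - (y - p)‖ := by congr 1; ring
            _ ≤ _ := norm_sub_le _ _
        linarith
      have h2 : 2 ≤ 4 / (e * r) * infDist y (P \ A) := by
        rw [div_mul_eq_mul_div, le_div_iff₀ her]
        linarith
      show 1 ≤ 4 / (e * r) * infDist y (P \ A) - 1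
      linarith
    · have hpm : p ∈ P \ A := ⟨hp, hpA⟩
      have h1 : infDist y (P \ A) ≤ e * r / 4 := by
        refine (infDist_le_dist_of_mem hpm).trans ?_
        rw [dist_eq_norm]
        exact hy
      have h2 : 4 / (e * r) * infDist y (P \ A) ≤ 1 := by
        rw [div_mul_eq_mul_div, div_le_iff₀ her]
        linarith
      show 4 / (e * r) * infDist y (P \ A) - 1 ≤ 0
      linarith

theorem clw (h : WW f N J P Cr η r₀ δ ρ) (hc : Pool.Agent.H66.DIM.Clu P) : ∃ L : ℝ, 0 ≤ L ∧ ∀ κ : ℝ, 0 < κ → ∃ x ∈ P, ∃ w : ℂ → ℝ,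
    UM P w ∧ w x = 1 ∧ (∀ y, 0 < w y → ‖y - x‖ < κ) ∧ ell ρ w ≤ ENNReal.ofReal L := by
  obtain ⟨ε, hε, hclu⟩ := hc
  obtain ⟨e, he0, he1, heε⟩ : ∃ e : ℝ, 0 < e ∧ e ≤ 1 ∧ e ≤ ε := ⟨min ε 1, lt_min hε one_pos, min_le_right _ _, min_le_left _ _⟩
  refine ⟨128 / e * (4 / e) * (9 * Real.pi), by positivity, fun κ hκ => ?_⟩
  have hδ := h.hδ
  obtain ⟨r, hr0, hr1, A, hAP, ⟨x, hxA⟩, hdiam, hsep'⟩ := hclu (min (κ / 4) (δ / 4)) (lt_min (by positivity) (by positivity))
  have hrκ : 4 * r < κ := by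
    have := lt_of_lt_of_le hr1 (min_le_left _ _)
    linarith
  have hrδ : 4 * r < δ := by
    have := lt_of_lt_of_le hr1 (min_le_right _ _)
    linarith
  have hsep : ∀ x ∈ A, ∀ y ∈ P, y ∉ A → e * r ≤ ‖x - y‖ := fun a ha b hb hbA =>
    (mul_le_mul_of_nonneg_right heε hr0.le).trans (hsep' a ha b hb hbA)
  obtain ⟨g, hgL, hg1, hg0⟩ := cutoff he0 hr0 hsep
  have her : 0 < e * r := by positivity
  obtain ⟨q, hq⟩ : ∃ q : ℂ → ℝ, q = fun y => max 0 (min 1 (min (g y) (3 - ‖y - x‖ / r))) := ⟨_, rfl⟩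
  have hq' : ∀ y, q y = max 0 (min 1 (min (g y) (3 - ‖y - x‖ / r))) := fun y => by rw [hq]
  have hq0 : ∀ y, 0 ≤ q y := fun y => by rw [hq']; exact le_max_left _ _
  have hq1 : ∀ y, q y ≤ 1 := fun y => by rw [hq']; exact max_le zero_le_one (min_le_left _ _)
  have hnl : LipschitzWith (4 / (e * r)).toNNReal fun y : ℂ => 3 - ‖y - x‖ / r := by
    refine LipschitzWith.of_dist_le_mul fun y z => ?_
    rw [Real.coe_toNNReal _ (by positivity), Real.dist_eq, dist_eq_norm]
    have h1 : 3 - ‖y - x‖ / r - (3 - ‖z - x‖ / r) = (‖z - x‖ - ‖y - x‖) / r := by ring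
    rw [h1, abs_div, abs_of_pos hr0]
    have h2 : |‖z - x‖ - ‖y - x‖| ≤ ‖y - z‖ := by
      refine (abs_norm_sub_norm_le _ _).trans (le_of_eq ?_)
      rw [sub_sub_sub_cancel_right, norm_sub_rev]
    calc |‖z - x‖ - ‖y - x‖| / r ≤ ‖y - z‖ / r := div_le_div_of_nonneg_right h2 hr0.le
      _ = 1 / r * ‖y - z‖ := by ring
      _ ≤ 4 / (e * r) * ‖y - z‖ := by
        refine mul_le_mul_of_nonneg_right ?_ (norm_nonneg _)
        rw [div_le_div_iff₀ hr0 her]
        nlinarith
  have hqL : LipschitzWith (4 / (e * r)).toNNReal q := by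
    rw [hq]
    have h1 := (hgL.min hnl)
    rw [max_self] at h1
    exact (h1.const_min 1).const_max 0
  have hqc : Continuous q := hqL.continuous
  have hfar : ∀ y, 3 * r ≤ ‖y - x‖ → q y = 0 := by
    intro y hy
    rw [hq']
    refine max_eq_left ((min_le_right _ _).trans ((min_le_right _ _).trans ?_))
    have : 3 ≤ ‖y - x‖ / r := by
      rw [le_div_iff₀ hr0]
      exact hy
    linarith
  have hpos : ∀ y, 0 < q y → ‖y - x‖ < 3 * r := by
    intro y hy
    by_contra hcon
    rw [not_lt] at hcon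
    rw [hfar y hcon] at hy
    exact lt_irrefl _ hy
  have hA1 : ∀ p ∈ A, ∀ y, ‖y - p‖ ≤ e * r / 4 → q y = 1 := by
    intro p hp y hy
    have h1 := hg1 p hp y hy
    have h2 : ‖y - x‖ ≤ 2 * r := by
      have h3 : ‖y - x‖ ≤ ‖y - p‖ + ‖p - x‖ := by
        calc ‖y - x‖ = ‖(y - p) + (p - x)‖ := by congr 1; ring
          _ ≤ _ := norm_add_le _ _
      have h4 := hdiam p hp x hxA
      nlinarith
    have h3 : 1 ≤ 3 - ‖y - x‖ / r := by
      have : ‖y - x‖ / r ≤ 2 := by
        rw [div_le_iff₀ hr0]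
        exact h2
      linarith
    rw [hq', min_eq_left (le_min h1 h3)]
    exact max_eq_right zero_le_one
  have hA0 : ∀ p ∈ P, p ∉ A → ∀ y, ‖y - p‖ ≤ e * r / 4 → q y = 0 := by
    intro p hp hpA y hy
    rw [hq']
    exact max_eq_left ((min_le_right _ _).trans ((min_le_left _ _).trans (hg0 p hp hpA y hy)))
  have hP : ∀ p ∈ P, ∀ y, ‖y - p‖ ≤ e * r / 4 → q y = q p := by
    intro p hp y hy
    have h0 : ‖p - p‖ ≤ e * r / 4 := by
      rw [sub_self, norm_zero]
      positivity
    by_cases hpA : p ∈ A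
    · rw [hA1 p hpA y hy, hA1 p hpA p h0]
    · rw [hA0 p hp hpA y hy, hA0 p hp hpA p h0]
  have hxP : x ∈ P := hAP hxA
  have hqx : q x = 1 := hA1 x hxA x (by rw [sub_self, norm_zero]; positivity)
  have hlc : ∀ p ∈ P, ∀ᶠ y in 𝓝 p, q y = q p := by
    intro p hp
    filter_upwards [ball_mem_nhds p (show 0 < e * r / 4 by positivity)] with y hy
    rw [mem_ball, dist_eq_norm] at hy
    exact hP p hp y hy.le
  have hcs : HasCompactSupport q := by
    refine HasCompactSupport.intro (isCompact_closedBall x (3 * r)) fun y hy => ?_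
    refine hfar y ?_
    rw [mem_closedBall, dist_eq_norm, not_le] at hy
    exact hy.le
  -- the length
  have hell : ell ρ q ≤ ENNReal.ofReal (128 / e * (4 / e) * (9 * Real.pi)) := by
    have h1 : ∀ y, ρ y * ENNReal.ofReal ‖fderiv ℝ q y‖ ≤
        (closedBall x (3 * r)).indicator (fun _ => ENNReal.ofReal (128 / (e * r)) * ENNReal.ofReal (4 / (e * r))) y := by
      intro y
      by_cases hy : fderiv ℝ q y = 0
      · rw [hy, norm_zero, ENNReal.ofReal_zero, mul_zero]
        exact zero_le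
      · have h2 : y ∈ closedBall x (3 * r) := by
          rw [mem_closedBall, dist_eq_norm]
          by_contra hcon
          rw [not_le] at hcon
          apply hy
          refine fd_zero ?_
          have h3 : ∀ᶠ z in 𝓝 y, 3 * r < ‖z - x‖ :=
            continuousAt_const.eventually_lt ((continuous_id.sub continuous_const).norm.continuousAt) hcon
          filter_upwards [h3] with z hz
          rw [hfar z hz.le, hfar y hcon.le]
        have h2' := h2
        rw [mem_closedBall, dist_eq_norm] at h2'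
        have h3 : Disjoint (ball y (e * r / 8)) P := by
          rw [Set.disjoint_left]
          intro p hp hpP
          rw [mem_ball, dist_eq_norm] at hp
          apply hy
          refine fd_zero ?_
          have h4 : ∀ z, ‖z - y‖ < e * r / 8 → q z = q p := by
            intro z hz
            refine hP p hpP z ?_
            have h5 : ‖z - p‖ ≤ ‖z - y‖ + ‖p - y‖ := by
              calc ‖z - p‖ = ‖(z - y) - (p - y)‖ := by congr 1; ring
                _ ≤ _ := norm_sub_le _ _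
            linarith
          filter_upwards [ball_mem_nhds y (show 0 < e * r / 8 by positivity)] with z hz
          rw [mem_ball, dist_eq_norm] at hz
          rw [h4 z hz, h4 y (by rw [sub_self, norm_zero]; positivity)]
        have h4 : ball y (e * r / 8) ⊆ thickening δ P := by
          intro z hz
          rw [mem_ball, dist_eq_norm] at hz
          refine mem_thickening_iff.2 ⟨x, hxP, ?_⟩
          rw [dist_eq_norm]
          calc ‖z - x‖ = ‖(z - y) + (y - x)‖ := by congr 1; ring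
            _ ≤ ‖z - y‖ + ‖y - x‖ := norm_add_le _ _
            _ < δ := by nlinarith
        have h5 := h.up y (e * r / 8) (by positivity) h4 h3
        rw [indicator_of_mem h2]
        have h6 : ‖fderiv ℝ q y‖ ≤ 4 / (e * r) := by
          have h7 := norm_fderiv_le_of_lipschitz ℝ hqL (x₀ := y)
          rwa [Real.coe_toNNReal _ (by positivity)] at h7
        have h7 : 16 / (e * r / 8) = 128 / (e * r) := by
          field_simp
          norm_num
        rw [h7] at h5
        exact mul_le_mul' h5 (ENNReal.ofReal_le_ofReal h6)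
    unfold ell
    refine (lintegral_mono h1).trans ?_
    rw [lintegral_indicator measurableSet_closedBall, setLIntegral_const, Complex.volume_closedBall]
    have h2 : ((NNReal.pi : NNReal) : ENNReal) = ENNReal.ofReal Real.pi := by
      rw [← NNReal.coe_real_pi, ENNReal.ofReal_coe_nnreal]
    rw [h2, ← ENNReal.ofReal_pow (by positivity), ← ENNReal.ofReal_mul (by positivity), ← ENNReal.ofReal_mul (by positivity),
      ← ENNReal.ofReal_mul (by positivity)]
    refine ENNReal.ofReal_le_ofReal (le_of_eq ?_)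
    field_simp
    ring
  obtain ⟨a, b, ha, -, -, h1, h2, h3, h4⟩ := ext_um (ρ := ρ) h.Pc hqL hq0 hq1 hcs hlc hqx one_pos le_rfl
  refine ⟨x, hxP, _, h1, h2, fun y hy => ?_, h4.trans ?_⟩
  · have h5 : y ∈ ball x (3 * r) := oc_sub (full_ball x (3 * r)) (fun z (hz : a < q z) => by
      rw [mem_ball, dist_eq_norm]
      exact hpos z (ha.trans_lt hz)) (h3 y hy)
    rw [mem_ball, dist_eq_norm] at h5
    linarith
  · rw [inv_one, ENNReal.ofReal_one, one_mul]
    exact hell

theorem lmc (h : WW f N J P Cr η r₀ δ ρ) (hc : Pool.Agent.H66.DIM.Clu P) : ∃ c ∈ Cr, ∃ Λ : ℝ, Lm P ρ (f c) Λ := by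
  obtain ⟨L, hL, hw⟩ := clw h hc
  exact lm_ex h hL hw

end Pool.Agent.H56.WV
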