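import Pool.Agent.H56.WV.Pls
import Pool.Agent.H81.RW.Gl

/-!
(Copy of `H81/RW/Pbk` with density of the orbits of the critical values only.)

# Module Pbk: THE UNIVALENT PULL BACK

`pbk`. PROOF. `t > 0` with `2 exp (4 M) t < κ`; `ε` from `shr` for `t`; `κ' = min (ε) (κ / 2) (δ / 2)` / 2 or so: `{0 < w} ⊆ ball y₀ κ' ⊆ ball y₀ ε` gives `hsh` of `pls`; `p₀, y` in `ball y₀ κ'` gives `infDist y P ≤ ‖y - p₀‖ < δ`; `‖y - f^[T] x‖ < 2 κ' ≤ κ` (`f^[T] x` is in `{0 < w}` because `a ≤ w`). Induction on `k ≤ T`: `k = 0`: `pl_zero`.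
`k + 1`: if the second alternative holds for `k` it holds for `k + 1`; otherwise `PL` at `f^[T - k] x = f (f^[T - k - 1] x)`, `pls` with `f^[T - k - 1] x ∈ N ∩ J`.
`pl_um`. PROOF. `u = pb (f^[k]) W (trc a 1 w)`; `tsupport (trc a 1 w) ⊆ {a ≤ w} ⊆ {b < w}`; `UM P (trc a 1 w)`: `um_trc` (values `0`, `1`). `pb_um` (`P` is forward invariant), `pb_ell` with `it_ct` (`f^[j] y ∈ thickening δ J`: `‖f^[j] y - f^[j] x‖ < κ ≤ δ`, `f^[j] x ∈ J`; `deriv ≠ 0`: `bh_der`), `ell_trc`, `ellp_le`: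
`ell ρ (trc a 1 w) ≤ ofReal (1 - a)⁻¹ * ell' ρ w a 1`. `{0 < u} ⊆ W`, `sm` with `j = 0`.
-/

set_option autoImplicit false

open Filter Topology Metric Set MeasureTheory

namespace Pool.Agent.H56.WV

open Pool.Agent.H81.RW

open Pool.Agent.H56.TH

variable {f : ℂ → ℂ} {N J P Cr : Set ℂ} {η : ℂ → ℂ → ℂ} {r₀ δ : ℝ} {ρ : ℂ → ENNReal}

theorem pbk (h : WW f N J P Cr η r₀ δ ρ) {κ M : ℝ} (hκ : 0 < κ) (hκδ : κ ≤ δ) (hM : 0 ≤ M) :
    ∃ κ' : ℝ, 0 < κ' ∧ ∀ (w : ℂ → ℝ) (y₀ : ℂ), UM P w → (∀ y, 0 < w y → ‖y - y₀‖ < κ') → ∀ a : ℝ, 0 < a → a ≤ 1 →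
      (∀ a' : ℝ, 0 ≤ a' → a' < a → ell' ρ w a' a ≤ ENNReal.ofReal (M * (a - a'))) →
      ∀ p₀ ∈ P, w p₀ = 1 → ∀ (T : ℕ) (x : ℂ), x ∈ J → (∀ j < T, f^[j] x ∈ N ∧ infDist (f^[j] x) P < δ) →
      a ≤ w (f^[T] x) → ∀ k ≤ T, (∃ (b : ℝ) (W : Set ℂ), PL f N w a κ (f^[T - k] x) k b W) ∨
      ∃ i < k, ∃ (b : ℝ) (W : Set ℂ), PL f N w a κ (f^[T - i] x) i b W ∧ ∃ c ∈ Cr, f c ∈ W ∧
        f^[T - i - 1] x ∈ η c '' ball 0 r₀ ∧ ball (f^[T - i] x) δ ⊆ ball (f c) (r₀ ^ 2 / 4) := by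
  have he : 0 < Real.exp (4 * M) := Real.exp_pos _
  obtain ⟨t, ht⟩ : ∃ t, t = κ / (4 * Real.exp (4 * M)) := ⟨_, rfl⟩
  have ht0 : 0 < t := by
    rw [ht]
    positivity
  have htκ : 2 * Real.exp (4 * M) * t < κ := by
    have h1 : 2 * Real.exp (4 * M) * t = κ / 2 := by
      rw [ht]
      field_simp
      norm_num
    rw [h1]
    linarith
  obtain ⟨ε, hε, hsh⟩ := shr h.Jc h.Jt h.Jf h.fc h.leo ht0
  refine ⟨min ε (κ / 2), lt_min hε (by linarith), ?_⟩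
  intro w y₀ hw hsm a ha ha1 hg p₀ hp hp1 T x hx hN hxa
  have hsm2 : ∀ y z, 0 < w y → 0 < w z → ‖y - z‖ < κ := by
    intro y z hy hz
    have h1 := (hsm y hy).trans_le (min_le_right _ _)
    have h2 := (hsm z hz).trans_le (min_le_right _ _)
    have h3 : ‖y - z‖ ≤ ‖y - y₀‖ + ‖z - y₀‖ := by
      have h4 : y - z = (y - y₀) - (z - y₀) := by ring
      rw [h4]
      exact norm_sub_le _ _
    linarith
  have hn : ∀ y, 0 < w y → infDist y P < δ := by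
    intro y hy
    have h1 := infDist_le_dist_of_mem (x := y) hp
    rw [dist_eq_norm] at h1
    exact h1.trans_lt ((hsm2 y p₀ hy (by rw [hp1]; norm_num)).trans_le hκδ)
  have hsh' : ∀ q ∈ J, ∀ k : ℕ, ¬ (f^[k] '' (ball q t ∩ J) ⊆ {y | 0 < w y}) := by
    intro q hq k hk
    refine hsh q hq k y₀ (hk.trans fun y hy => ?_)
    rw [mem_ball, dist_eq_norm]
    exact (hsm y hy).trans_le (min_le_left _ _)
  intro k
  induction k with
  | zero =>
    intro _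
    refine Or.inl ⟨0, {y | 0 < w y}, ?_⟩
    rw [Nat.sub_zero]
    exact pl_zero hw ha hxa fun y hy => hsm2 y _ hy (ha.trans_le hxa)
  | succ k ih =>
    intro hk
    rcases ih (by omega) with ⟨b, W, hP⟩ | ⟨i, hi, hr⟩
    · have e1 : T - k = T - (k + 1) + 1 := by omega
      have hP' : PL f N w a κ (f (f^[T - (k + 1)] x)) k b W := by
        have e2 : f (f^[T - (k + 1)] x) = f^[T - k] x := by
          rw [e1, Function.iterate_succ_apply']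
        rw [e2]
        exact hP
      rcases pls h hw ha1 hM hκδ hg hp hp1 hn ht0 htκ hsh' hP' (hN _ (by omega)).1 (it_J h _ hx) (hN _ (by omega)).2 with
        ⟨b', W', h1, -⟩ | ⟨c, hc, h1, h2, h3⟩
      · exact Or.inl ⟨b', W', h1⟩
      · refine Or.inr ⟨k, by omega, b, W, hP, c, hc, h1, ?_, ?_⟩
        · rw [Nat.sub_sub]
          exact h2
        · rw [e1, Function.iterate_succ_apply']
          exact h3
    · exact Or.inr ⟨i, by omega, hr⟩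

theorem pl_um (h : WW f N J P Cr η r₀ δ ρ) {w : ℂ → ℝ} (hw : UM P w) {a κ : ℝ} (ha : a < 1) (hκ : κ ≤ δ) {x : ℂ}
    (hx : x ∈ J) {k : ℕ} {b : ℝ} {W : Set ℂ} (hP : PL f N w a κ x k b W) :
    UM P (pb (f^[k]) W (trc a 1 w)) ∧ (∀ y, 0 < pb (f^[k]) W (trc a 1 w) y → y ∈ W ∧ a < w (f^[k] y)) ∧
      ell ρ (pb (f^[k]) W (trc a 1 w)) ≤ ENNReal.ofReal (1 - a)⁻¹ * ell ρ w ∧
      ∀ y ∈ W, w (f^[k] y) = 1 → pb (f^[k]) W (trc a 1 w) y = 1 := by
  have ha0 : 0 ≤ a := hP.b0.trans hP.ba.le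
  have hc : Continuous w := ul_cont (ul_um hw)
  have hT : UM P (trc a 1 w) := um_trc (ul_um hw) ha0 ha fun y hy => (hw.va y hy).imp (fun e => by rw [e]; exact ha0)
    fun e => by rw [e]
  have hs : tsupport (trc a 1 w) ⊆ {y | b < w y} := by
    refine (closure_minimal (t := {y | a ≤ w y}) (fun y hy => ?_) (isClosed_le continuous_const hc)).trans
      fun y hy => hP.ba.trans_le hy
    by_contra h1
    exact hy (trc_zero ha (not_le.1 h1).le)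
  refine ⟨pb_um hP.bh hT hs fun y hy _ => it_P h k hy, ?_, ?_, ?_⟩
  · intro y hy
    by_cases hyW : y ∈ W
    · refine ⟨hyW, ?_⟩
      by_contra h1
      rw [pb_on hyW, trc_zero ha (not_lt.1 h1)] at hy
      exact lt_irrefl _ hy
    · rw [pb_off hyW] at hy
      exact absurd hy (lt_irrefl _)
  · refine (pb_ell hP.bh hT.cs hs fun y hy => ?_).trans ((ell_trc hc ha).trans ?_)
    · refine it_ct h k (hP.Nn y hy) (fun j _ hj => ?_) (bh_der hP.bh hy)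
      rw [mem_thickening_iff]
      refine ⟨f^[j] x, it_J h j hx, ?_⟩
      rw [dist_eq_norm]
      exact (hP.sm j hj y hy).trans_le hκ
    · gcongr
      exact ellp_le
  · intro y hy h1
    rw [pb_on hy]
    exact trc_one ha h1.ge

end Pool.Agent.H56.WV
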