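import Pool.Agent.H56.WV.Os
import Pool.Agent.H56.WV.Sz
import Pool.Agent.H81.RW.Shr

/-!
(Copy of `H81/RW/Pls` with density of the orbits of the critical values only.)

# Module Pls: the step of the univalent pull back

`pl_zero`: `W = {0 < w}`, `b = 0`, `f^[0] = id`.
`pls`. PROOF. `W` is open, preconnected (`bh_pre`, `ul_co`: `W = W ∩ F ⁻¹' {b < w}`), full (`Bh.fu`), `W ⊆ ball (f x) κ ⊆ ball (f x) δ` (`sm`, `j = 0`). `os` at `x`. Right side: `f c ∈ W`. Left side: `Bh f W' W`, `x ∈ W' ⊆ N`. `Bh (f^[k + 1]) W' {b < w}` (`bh_comp`, `Function.iterate_succ`).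
`q ∈ W'` with `f^[k + 1] q = p₀` (`img`, `b < a ≤ 1 = w p₀`); `q ∈ J` (`it_back`; the orbit of `q` is in `N`: `W' ⊆ N`, and `f q ∈ W`: `Nn`). Let `b < b' < a`, `V = W' ∩ (f^[k + 1]) ⁻¹' {b' < w}`. `ball q t` is not contained in `V` (`hsh`), so there is `y ∈ ball q t`, `y ∉ V`; `sz` for all `x' ∈ W'` with
`a ≤ w (f^[k + 1] x')`: `‖x' - q‖ ≤ exp (4 M) t`; in particular for `x' = x`: `‖x' - x‖ ≤ 2 exp (4 M) t < κ`. `sl` gives `b₁ ∈ (b, a)`; `W'' = W' ∩ (f^[k + 1]) ⁻¹' {b₁ < w}` (`bh_sub`). `sm` for `j = 0` by `sl`, for `j = i + 1`: `f^[i + 1] y = f^[i] (f y)`, `f y ∈ W`.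
-/

set_option autoImplicit false

open Filter Topology Metric Set MeasureTheory

namespace Pool.Agent.H56.WV

open Pool.Agent.H81.RW

open Pool.Agent.H56.TH

variable {f : ℂ → ℂ} {N J P Cr : Set ℂ} {η : ℂ → ℂ → ℂ} {r₀ δ : ℝ} {ρ : ℂ → ENNReal}

theorem pl_zero {w : ℂ → ℝ} (hw : UM P w) {a κ : ℝ} (ha : 0 < a) {x : ℂ} (hx : a ≤ w x)
    (hs : ∀ y, 0 < w y → ‖y - x‖ < κ) : PL f N w a κ x 0 0 {y | 0 < w y} := by
  have hc : Continuous w := ul_cont (ul_um hw)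
  refine ⟨le_rfl, ha, ⟨isOpen_lt continuous_const hc, ?_, ?_, ?_, ?_⟩, ha.trans_le hx, hx, ?_, ?_⟩
  · exact differentiableOn_id
  · exact fun y _ y' _ he => he
  · exact image_id _
  · intro V hV hf
    have h1 : {y | 0 < w y} ∩ f^[0] ⁻¹' V = V := by
      ext y
      exact ⟨fun hy => hy.2, fun hy => ⟨hV hy, hy⟩⟩
    rw [h1]
    exact hf
  · intro y _ j hj
    exact absurd hj (Nat.not_lt_zero j)
  · intro j hj y hy
    obtain rfl : j = 0 := Nat.le_zero.1 hj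
    exact hs y hy

theorem pls (h : WW f N J P Cr η r₀ δ ρ) {w : ℂ → ℝ} (hw : UM P w) {a M κ t : ℝ} (ha1 : a ≤ 1) (hM : 0 ≤ M)
    (hκ : κ ≤ δ) (hg : ∀ a' : ℝ, 0 ≤ a' → a' < a → ell' ρ w a' a ≤ ENNReal.ofReal (M * (a - a')))
    {p₀ : ℂ} (hp : p₀ ∈ P) (hp1 : w p₀ = 1) (hn : ∀ y, 0 < w y → infDist y P < δ) (ht : 0 < t)
    (htκ : 2 * Real.exp (4 * M) * t < κ)
    (hsh : ∀ q ∈ J, ∀ k : ℕ, ¬ (f^[k] '' (ball q t ∩ J) ⊆ {y | 0 < w y})) {x : ℂ} {k : ℕ} {b : ℝ} {W : Set ℂ}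
    (hP : PL f N w a κ (f x) k b W) (hxN : x ∈ N) (hxJ : x ∈ J) (hxP : infDist x P < δ) :
    (∃ (b' : ℝ) (W' : Set ℂ), PL f N w a κ x (k + 1) b' W' ∧ ∀ y ∈ W', f y ∈ W) ∨
      ∃ c ∈ Cr, f c ∈ W ∧ x ∈ η c '' ball 0 r₀ ∧ ball (f x) δ ⊆ ball (f c) (r₀ ^ 2 / 4) := by
  have hwL : UL P w := ul_um hw
  have hwc : Continuous w := ul_cont hwL
  have hWe : W ∩ f^[k] ⁻¹' {y | b < w y} = W := by
    refine subset_antisymm inter_subset_left fun y hy => ⟨hy, ?_⟩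
    have h1 : f^[k] y ∈ f^[k] '' W := mem_image_of_mem _ hy
    rw [hP.bh.img] at h1
    exact h1
  have hWc : IsPreconnected W := by
    have h1 := bh_pre hP.bh Subset.rfl (ul_co hwL hP.b0)
    rwa [hWe] at h1
  have hWf : Full W := by
    have h1 := hP.bh.fu _ Subset.rfl (ul_fu hwL hP.b0)
    rwa [hWe] at h1
  have hWb : W ⊆ ball (f x) δ := by
    intro y hy
    have h1 : ‖y - f x‖ < κ := hP.sm 0 (Nat.zero_le k) y hy
    rw [mem_ball, dist_eq_norm]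
    exact h1.trans_le hκ
  rcases os h hP.bh.Wo hWc hWf hxN hxJ hxP hP.xW hWb with ⟨W', hB', hxW', hW'N⟩ | h1
  swap
  · exact Or.inr h1
  left
  have hB : Bh (f^[k + 1]) W' {y | b < w y} := bh_comp (F := f) (G := f^[k]) hB' hP.bh
  have hfW : ∀ y ∈ W', f y ∈ W := fun y hy => by
    have h1 : f y ∈ f '' W' := mem_image_of_mem f hy
    rwa [hB'.img] at h1
  have hNn : ∀ y ∈ W', ∀ j < k + 1, f^[j] y ∈ N := by
    intro y hy j hj
    cases j with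
    | zero => exact hW'N hy
    | succ i => exact hP.Nn (f y) (hfW y hy) i (Nat.lt_of_succ_lt_succ hj)
  have hpb : p₀ ∈ {y | b < w y} := by
    show b < w p₀
    rw [hp1]
    exact hP.ba.trans_le ha1
  rw [← hB.img] at hpb
  obtain ⟨q, hq, hqp⟩ := hpb
  have hqJ : q ∈ J := it_back h (k + 1) (hNn q hq) (by rw [hqp]; exact h.PJ hp)
  obtain ⟨b', hbb, hba⟩ := exists_between hP.ba
  have hb'0 : 0 ≤ b' := hP.b0.trans hbb.le
  have hy : ∃ y ∈ ball q t, y ∉ W' ∩ f^[k + 1] ⁻¹' {u | b' < w u} := by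
    by_contra hcon
    push Not at hcon
    refine hsh q hqJ (k + 1) ?_
    rintro _ ⟨y, hy, rfl⟩
    have h1 : b' < w (f^[k + 1] y) := (hcon y hy.1).2
    exact hb'0.trans_lt h1
  obtain ⟨y, hyt, hyV⟩ := hy
  have hyt' : ‖y - q‖ < t := by
    rw [mem_ball, dist_eq_norm] at hyt
    exact hyt
  have key : ∀ x' ∈ W', a ≤ w (f^[k + 1] x') → ‖x' - q‖ ≤ Real.exp (4 * M) * t := by
    intro x' hx' hxa'
    have h1 := sz h hwL hP.b0 hbb hba hM hB hNn (fun y hy => hn y (hP.b0.trans_lt hy))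
      (hg b' hb'0 hba) hq (by rw [hqp]; exact hp) (by rw [hqp, hp1]; exact ha1) hx' hxa' hyV
    exact h1.trans (mul_le_mul_of_nonneg_left hyt'.le (Real.exp_pos _).le)
  have hxa : a ≤ w (f^[k + 1] x) := hP.xa
  have hE : ∀ y ∈ W', a ≤ w (f^[k + 1] y) → ‖y - x‖ < κ := by
    intro y hy hya
    have h1 := key y hy hya
    have h2 := key x hxW' hxa
    have h3 : ‖y - x‖ ≤ ‖y - q‖ + ‖x - q‖ := by
      have h4 : y - x = (y - q) - (x - q) := by ring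
      rw [h4]
      exact norm_sub_le _ _
    linarith
  obtain ⟨b₁, hb1, hb2, hb3⟩ := sl hwc hw.cs hP.b0 hP.ba hB hE
  have hsub : {y | b₁ < w y} ⊆ {y | b < w y} := fun y (hy : b₁ < w y) => hb1.trans hy
  refine ⟨b₁, W' ∩ f^[k + 1] ⁻¹' {y | b₁ < w y}, ⟨hP.b0.trans hb1.le, hb2,
    bh_sub hB hsub (isOpen_lt continuous_const hwc), ⟨hxW', hb2.trans_le hxa⟩, hxa,
    fun y hy => hNn y hy.1, ?_⟩, fun y hy => hfW y hy.1⟩
  intro j hj y hy
  cases j with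
  | zero => exact hb3 y hy.1 hy.2
  | succ i => exact hP.sm i (Nat.le_of_succ_le_succ hj) (f y) (hfW y hy.1)

end Pool.Agent.H56.WV
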