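import Pool.Agent.H56.WV.Wdf
import Pool.Agent.H81.RW.Thk
import Pool.Agent.H81.RW.Ub
import Pool.Agent.H81.RW.Lev

/-!
(Copy of `H81/RW/Tc` with density of the orbits of the critical values only.)

# Module Tc: thickness at the points of `P`

PROOF. If `‖x - z‖ ≤ ‖y - z‖` use `exp (4 M) ≥ 1`. Otherwise `r = ‖y - z‖ < R = ‖x - z‖ < δ`; `r > 0` (`y = z` contradicts `h1`, `h2`). Let `a < t < b`. For `r < s < R`: the set `{a < w}` is full (`ul_fu`) and does not contain `z` or does not contain `y`: `circ_full` gives a point of the circle with `w ≤ a`.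
The set `{t < w}` is preconnected (`ul_co`), contains `z` or `y`, and `x`: `circ_pre` gives a point of the circle with `w > t`. `ρ x' ≥ ofReal ((1 / 4) / ‖x' - z‖)` in the annulus: `WW.lb` with `k = 0`, `q = z` (`infDist x' P ≤ ‖x' - z‖ < R < δ`, `deriv id = 1`). `thk` with `c₀ = 1 / 4`, levels `a`, `t`:
`(t - a) (1 / 4) log (R / r) ≤ ell' ρ w a t ≤ ell' ρ w a b ≤ M (b - a)` (in `ENNReal.ofReal`; `M (b - a) ≥ 0`). Let `t → b`: `log (R / r) ≤ 4 M`.
-/

set_option autoImplicit false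

open Filter Topology Metric Set MeasureTheory

namespace Pool.Agent.H56.WV

open Pool.Agent.H81.RW

open Pool.Agent.H56.TH

variable {f : ℂ → ℂ} {N J P Cr : Set ℂ} {η : ℂ → ℂ → ℂ} {r₀ δ : ℝ} {ρ : ℂ → ENNReal}

theorem tc (h : WW f N J P Cr η r₀ δ ρ) {w : ℂ → ℝ} (hw : UL P w) {a b M : ℝ} (ha : 0 ≤ a) (hab : a < b) (hM : 0 ≤ M)
    (hl : ell' ρ w a b ≤ ENNReal.ofReal (M * (b - a))) {z x y : ℂ} (hz : z ∈ P) (h1 : w z ≤ a ∨ w y ≤ a)
    (h2 : b ≤ w z ∨ b ≤ w y) (hx : b ≤ w x) (hδ : ‖x - z‖ < δ) : ‖x - z‖ ≤ Real.exp (4 * M) * ‖y - z‖ := by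
  rcases le_or_gt ‖x - z‖ ‖y - z‖ with hle | hlt
  · calc ‖x - z‖ ≤ 1 * ‖y - z‖ := by rw [one_mul]; exact hle
      _ ≤ Real.exp (4 * M) * ‖y - z‖ :=
          mul_le_mul_of_nonneg_right (Real.one_le_exp (by linarith)) (norm_nonneg _)
  · obtain ⟨r, hr⟩ : ∃ r, r = ‖y - z‖ := ⟨_, rfl⟩
    obtain ⟨R, hR⟩ : ∃ R, R = ‖x - z‖ := ⟨_, rfl⟩
    rw [← hr, ← hR] at hlt
    rw [← hR] at hδ
    rw [← hr, ← hR]
    have hr0 : 0 < r := by
      rw [hr, norm_pos_iff, sub_ne_zero]
      intro hyz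
      rw [hyz, or_self] at h1 h2
      linarith
    have hR0 : 0 < R := hr0.trans hlt
    have hba : 0 < b - a := sub_pos.2 hab
    obtain ⟨K, hK⟩ := hw.lip
    have hρ : ∀ x', r < ‖x' - z‖ → ‖x' - z‖ < R → ENNReal.ofReal ((1 / 4) / ‖x' - z‖) ≤ ρ x' := by
      intro x' _ hx2
      have h3 := h.lb 0 x' z (fun j hj => absurd hj (Nat.not_lt_zero j)) (fun j hj => absurd hj (Nat.not_lt_zero j))
        hz (by
          refine lt_of_le_of_lt ?_ (hx2.trans hδ)
          rw [← dist_eq_norm]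
          exact infDist_le_dist_of_mem hz) (by
          rw [Function.iterate_zero, deriv_id]
          exact one_ne_zero)
      rw [Function.iterate_zero, deriv_id, norm_one, ENNReal.ofReal_one, mul_one, id] at h3
      rwa [div_div]
    have key : ∀ t, a < t → t < b → (t - a) * (1 / 4 * Real.log (R / r)) ≤ M * (b - a) := by
      intro t hat htb
      have h3 := thk hK (z := z) (r := r) (R := R) (c₀ := 1 / 4) (a := a) (b := t) hr0 hlt (by norm_num) hat hρ
        (fun s hs1 hs2 => by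
          constructor
          · have h4 : ∃ y', y' ∉ {x | a < w x} ∧ ‖y' - z‖ < s := by
              rcases h1 with h1 | h1
              · refine ⟨z, fun h5 => absurd (show a < w z from h5) (not_lt.2 h1), ?_⟩
                rw [sub_self, norm_zero]
                exact hr0.trans hs1
              · exact ⟨y, fun h5 => absurd (show a < w y from h5) (not_lt.2 h1), hr ▸ hs1⟩
            obtain ⟨y', hy', hys⟩ := h4
            obtain ⟨x', hx', hxa⟩ := circ_full (ul_fu hw ha) hy' hys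
            exact ⟨x', hx', not_lt.1 hxa⟩
          · have h4 : ∃ p ∈ {x | t < w x}, ‖p - z‖ ≤ s := by
              rcases h2 with h2 | h2
              · refine ⟨z, lt_of_lt_of_le htb h2, ?_⟩
                rw [sub_self, norm_zero]
                exact (hr0.trans hs1).le
              · exact ⟨y, lt_of_lt_of_le htb h2, hr ▸ hs1.le⟩
            obtain ⟨p, hp, hps⟩ := h4
            obtain ⟨x', hx', hxs⟩ := circ_pre (ul_co hw (ha.trans hat.le)) hp hps
              (show x ∈ {x | t < w x} from lt_of_lt_of_le htb hx) (hR ▸ hs2.le)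
            exact ⟨x', hxs, le_of_lt hx'⟩)
      have h4 : ell' ρ w a t ≤ ell' ρ w a b := by
        unfold ell'
        exact lintegral_mono_set fun q hq => ⟨hq.1, hq.2.trans htb⟩
      exact (ENNReal.ofReal_le_ofReal_iff (mul_nonneg hM hba.le)).1 (h3.trans (h4.trans hl))
    have hlog : 0 < Real.log (R / r) := Real.log_pos ((one_lt_div hr0).2 hlt)
    have hc : 1 / 4 * Real.log (R / r) ≤ M := by
      by_contra hcon
      push Not at hcon
      have hc0 : 0 < 1 / 4 * Real.log (R / r) := by positivity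
      have h5 : M * (b - a) / (1 / 4 * Real.log (R / r)) < b - a := by
        rw [div_lt_iff₀ hc0, mul_comm (b - a)]
        exact mul_lt_mul_of_pos_right hcon hba
      obtain ⟨s, hs1, hs2⟩ := exists_between h5
      have hs0 : 0 < s := lt_of_le_of_lt (div_nonneg (mul_nonneg hM hba.le) hc0.le) hs1
      have h6 := key (a + s) (by linarith) (by linarith)
      rw [add_sub_cancel_left] at h6
      rw [div_lt_iff₀ hc0] at hs1
      linarith
    have h7 : R / r ≤ Real.exp (4 * M) := by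
      rw [← Real.log_le_iff_le_exp (div_pos hR0 hr0)]
      linarith
    rwa [div_le_iff₀ hr0] at h7

/-- the same with the whole length -/
theorem tc' (h : WW f N J P Cr η r₀ δ ρ) {w : ℂ → ℝ} (hw : UL P w) {a b L : ℝ} (ha : 0 ≤ a) (hab : a < b) (hL : 0 ≤ L)
    (hl : ell ρ w ≤ ENNReal.ofReal L) {z x y : ℂ} (hz : z ∈ P) (h1 : w z ≤ a ∨ w y ≤ a)
    (h2 : b ≤ w z ∨ b ≤ w y) (hx : b ≤ w x) (hδ : ‖x - z‖ < δ) :
    ‖x - z‖ ≤ Real.exp (4 * (L / (b - a))) * ‖y - z‖ := by
  have hba : 0 < b - a := sub_pos.2 hab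
  refine tc h hw ha hab (div_nonneg hL hba.le) ?_ hz h1 h2 hx hδ
  rw [div_mul_cancel₀ _ hba.ne']
  exact ellp_le.trans hl

end Pool.Agent.H56.WV
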